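import Pool.Agent.Y166.LT.Stm

/-!
# Project LT, job IRR: five irreducible polynomials
-/

set_option autoImplicit false
set_option linter.unusedSectionVars false

namespace Pool.Agent.Y61.LT.IRR

open MvPolynomial Pool.Agent.Y166.LT Pool.Agent.Y198.MC

section

variable {k : Type} [Field k] {σ : Type} {i : σ} {f g : MvPolynomial σ k}

theorem nv_X {j : σ} (h : j ≠ i) : i ∉ (X j : MvPolynomial σ k).vars := by
  rw [vars_X, Finset.mem_singleton]
  exact h.symm

theorem nv_add (hf : i ∉ f.vars) (hg : i ∉ g.vars) : i ∉ (f + g).vars := by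
  classical
  intro h
  rcases Finset.mem_union.1 (vars_add_subset f g h) with h | h
  · exact hf h
  · exact hg h

theorem nv_mul (hf : i ∉ f.vars) (hg : i ∉ g.vars) : i ∉ (f * g).vars := by
  classical
  intro h
  rcases Finset.mem_union.1 (vars_mul f g h) with h | h
  · exact hf h
  · exact hg h

theorem nv_neg (hf : i ∉ f.vars) : i ∉ (-f).vars := by
  have : -f = C (-1) * f := by simp
  rw [this]
  exact nv_mul (by simp) hf

theorem nv_pow (hf : i ∉ f.vars) (n : ℕ) : i ∉ (f ^ n).vars := by
  induction n with
  | zero => simp
  | succ n ih => rw [pow_succ]; exact nv_mul ih hf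

theorem nv_two : i ∉ (2 : MvPolynomial σ k).vars := by
  have : (2 : MvPolynomial σ k) = C 2 := (map_ofNat C 2).symm
  rw [this]
  simp

/-- a polynomial of degree one in the variable `i` -/
theorem irr_lin (j : σ) (n : ℕ) (hij : j ≠ i) (hg : i ∉ g.vars) (t : σ → k) (ht : t j = 0)
    (hgt : eval t g ≠ 0) : Irreducible (X j ^ n * X i + g) := by
  refine irreducible_mul_X_add _ _ i (pow_ne_zero _ (X_ne_zero _)) (nv_pow (nv_X hij) n) hg ?_
  have h1 : IsRelPrime (X j : MvPolynomial σ k) g := by
    rw [(X_prime (R := k) (i := j)).irreducible.isRelPrime_iff_not_dvd]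
    rintro ⟨q, rfl⟩
    apply hgt
    rw [eval_mul, eval_X, ht, zero_mul]
  exact h1.pow_left

end

theorem irr_lin' {k : Type} [Field k] {σ : Type} (F g : MvPolynomial σ k) (i j : σ) (n : ℕ)
    (hF : F = X j ^ n * X i + g) (hij : j ≠ i) (hg : i ∉ g.vars) (t : σ → k) (ht : t j = 0)
    (hgt : eval t g ≠ 0) : Irreducible F := by
  rw [hF]
  exact irr_lin j n hij hg t ht hgt

theorem done : S_IRR := by
  intro k _ _ r
  refine ⟨?_, ?_, ?_, ?_, ?_⟩
  · refine irr_lin' _ (-(X (.inr (.inl 0)) * X (.inl 1))) (.inr (.inl 1)) (.inl 0) 1 ?_ (by simp) ?_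
      (Sum.elim (fun m => if m = 0 then 0 else 1) (fun _ => 1)) (by simp) (by simp)
    · simp only [P01, wdg, tu, tv]; ring
    · repeat' first
        | with_reducible exact nv_two | with_reducible exact nv_X (by simp)
        | with_reducible apply nv_neg | with_reducible apply nv_pow
        | with_reducible apply nv_mul | with_reducible apply nv_add
  · refine irr_lin' _ (X (.inr (.inr (.inl 1))) * X (.inr (.inl 0))) (.inr (.inr (.inl 0)))
      (.inl 0) 1 ?_ (by simp) ?_ (Sum.elim (fun m => if m = 0 then 0 else 1) (fun _ => 1)) (by simp) (by simp)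
    · simp only [X0, vec, tu, tv, tx]; ring
    · repeat' first
        | with_reducible exact nv_two | with_reducible exact nv_X (by simp)
        | with_reducible apply nv_neg | with_reducible apply nv_pow
        | with_reducible apply nv_mul | with_reducible apply nv_add
  · refine irr_lin' _ (2 * (X (.inr (.inr (.inr 1))) * (X (.inl 0) * X (.inr (.inl 0)))) +
            X (.inr (.inr (.inr 2))) * X (.inr (.inl 0)) ^ 2) (.inr (.inr (.inr 0)))
      (.inl 0) 2 ?_ (by simp) ?_ (Sum.elim (fun m => if m = 0 then 0 else 1) (fun _ => 1)) (by simp) (by simp)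
    · simp only [Q00, quad, tu, tv, tq]; ring
    · repeat' first
        | with_reducible exact nv_two | with_reducible exact nv_X (by simp)
        | with_reducible apply nv_neg | with_reducible apply nv_pow
        | with_reducible apply nv_mul | with_reducible apply nv_add
  · refine irr_lin' _ (-(2 * (X (.inr (.inr (.inr 1))) * (X (.inr (.inr (.inl 0))) *
            X (.inr (.inr (.inl 1)))))) +
            X (.inr (.inr (.inr 2))) * X (.inr (.inr (.inl 0))) ^ 2) (.inr (.inr (.inr 0)))
      (.inr (.inr (.inl 1))) 2 ?_ (by simp) ?_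
      (Sum.elim (fun _ => 1) (Sum.elim (fun _ => 1) (Sum.elim (fun m => if m = 1 then 0 else 1)
        (fun _ => 1)))) (by simp) (by simp)
    · simp only [RR, tx, tq]; ring
    · repeat' first
        | with_reducible exact nv_two | with_reducible exact nv_X (by simp)
        | with_reducible apply nv_neg | with_reducible apply nv_pow
        | with_reducible apply nv_mul | with_reducible apply nv_add
  · have e : rho k r = 1 * X (.inr 2) +
        (X (.inr 0) ^ 2 + -(2 * (X (.inr 1) * X (.inr 0)))) := by
      simp only [rho]; ring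
    rw [e]
    apply irreducible_mul_X_add _ _ _ one_ne_zero
    · simp
    · repeat' first
        | with_reducible exact nv_two | with_reducible exact nv_X (by simp)
        | with_reducible apply nv_neg | with_reducible apply nv_pow
        | with_reducible apply nv_mul | with_reducible apply nv_add
    · exact isRelPrime_one_left

end Pool.Agent.Y61.LT.IRR
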